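import Pool.Agent.J4H79.TL.Four

set_option autoImplicit false

/-!
# Project TL (helper13), job CNT (helper79)
-/

namespace Pool.Agent.J4H79.TL

open Finset
open Pool.Agent.J4H13.LA Pool.Agent.J4H13.TL

variable {n : ℕ}

/-- the share of a line in a block -/
def sh (w : Fin n → ℕ) (F : Finset (Fin n)) (i : Fin n) : ℕ := if W w F = 2 then 1 else 2 + (W w F % 3) * w i

lemma card_le_W {w : Fin n → ℕ} (hw : IsWt w) (F : Finset (Fin n)) : F.card ≤ W w F := by
  unfold W
  rw [Finset.card_eq_sum_ones]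
  refine Finset.sum_le_sum fun i _ => ?_
  rcases hw i with h | h <;> omega

lemma W_le {w : Fin n → ℕ} (hw : IsWt w) (F : Finset (Fin n)) : W w F ≤ 2 * F.card := by
  unfold W
  rw [Finset.card_eq_sum_ones, Finset.mul_sum]
  refine Finset.sum_le_sum fun i _ => ?_
  rcases hw i with h | h <;> omega

lemma sum_sq {w : Fin n → ℕ} (hw : IsWt w) (F : Finset (Fin n)) : ∑ i ∈ F, w i ^ 2 + 2 * F.card = 3 * W w F := by
  unfold W
  rw [Finset.card_eq_sum_ones, Finset.mul_sum, Finset.mul_sum, ← Finset.sum_add_distrib]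
  refine Finset.sum_congr rfl fun i _ => ?_
  rcases hw i with h | h <;> rw [h] <;> norm_num

/-- the inequality for a block -/
lemma block_ineq {w : Fin n → ℕ} (hw : IsWt w) {F : Finset (Fin n)} (hF : 2 ≤ F.card) :
    ∑ i ∈ F, sh w F i + 18 * (W w F / 3).choose 2 + ∑ i ∈ F, w i ^ 2 ≤ W w F ^ 2 := by
  have h1 := card_le_W hw F
  have h2 := sum_sq hw F
  by_cases h3 : W w F = 2
  · have h4 : ∑ i ∈ F, sh w F i = F.card := by
      rw [Finset.card_eq_sum_ones]
      refine Finset.sum_congr rfl fun i _ => ?_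
      unfold sh
      rw [if_pos h3]
    rw [h4, h3]
    rw [h3] at h2 h1
    norm_num
    omega
  · have h4 : ∑ i ∈ F, sh w F i = 2 * F.card + (W w F % 3) * W w F := by
      have h5 : ∀ i ∈ F, sh w F i = 2 + (W w F % 3) * w i := by
        intro i _
        unfold sh
        rw [if_neg h3]
      rw [Finset.sum_congr rfl h5, Finset.sum_add_distrib, ← Finset.mul_sum, Finset.sum_const, smul_eq_mul, mul_comm]
      rfl
    obtain ⟨f, hf⟩ : ∃ f, f = W w F / 3 := ⟨_, rfl⟩
    obtain ⟨r, hr⟩ : ∃ r, r = W w F % 3 := ⟨_, rfl⟩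
    have h5 : W w F = 3 * f + r := by omega
    have h6 : 1 ≤ f := by omega
    rw [h4, ← hr, ← hf]
    obtain ⟨g, rfl⟩ : ∃ g, f = g + 1 := ⟨f - 1, by omega⟩
    have h7 : 2 * (g + 1).choose 2 = (g + 1) * g := by
      rw [Nat.choose_two_right, Nat.add_sub_cancel]
      refine Nat.two_mul_div_two_of_even ?_
      rw [mul_comm]
      exact Nat.even_mul_succ_self g
    have h8 : 18 * (g + 1).choose 2 = 9 * ((g + 1) * g) := by rw [← h7]; ring
    rw [h8]
    have h9 : 2 * F.card + r * W w F + 9 * ((g + 1) * g) + ∑ i ∈ F, w i ^ 2 = 3 * W w F + r * W w F + 9 * ((g + 1) * g) := by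
      omega
    rw [h9, h5]
    nlinarith [Nat.zero_le (g * r)]

/-- the blocks through `i` cover the other lines once -/
lemma through_sum {Φ : Finset (Finset (Fin n))} (h : IsLS Φ) (w : Fin n → ℕ) (i : Fin n) :
    ∑ F ∈ Φ.filter (fun F => i ∈ F), W w F + w i = ∑ j, w j + (Φ.filter (fun F => i ∈ F)).card * w i := by
  classical
  have h2 : (Finset.univ.erase i : Finset (Fin n)) =
      (Φ.filter (fun F => i ∈ F)).biUnion (fun F => F.erase i) := by
    ext j
    rw [Finset.mem_biUnion, Finset.mem_erase]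
    constructor
    · rintro ⟨hj, -⟩
      obtain ⟨F, hF, hiF, hjF⟩ := h.2.1 i j (Ne.symm hj)
      exact ⟨F, Finset.mem_filter.2 ⟨hF, hiF⟩, Finset.mem_erase.2 ⟨hj, hjF⟩⟩
    · rintro ⟨F, -, hjF⟩
      exact ⟨(Finset.mem_erase.1 hjF).1, Finset.mem_univ j⟩
  have h3 : ∑ j ∈ Finset.univ.erase i, w j = ∑ F ∈ Φ.filter (fun F => i ∈ F), ∑ j ∈ F.erase i, w j := by
    rw [h2, Finset.sum_biUnion]
    intro F hF F' hF' hne
    rw [Function.onFun, Finset.disjoint_left]
    intro j hj hj'
    apply hne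
    rw [Finset.mem_coe, Finset.mem_filter] at hF hF'
    rw [Finset.mem_erase] at hj hj'
    exact h.2.2 F hF.1 F' hF'.1 j i hj.1 hj.2 hF.2 hj'.2 hF'.2
  have h4 : ∑ F ∈ Φ.filter (fun F => i ∈ F), W w F =
      ∑ F ∈ Φ.filter (fun F => i ∈ F), ∑ j ∈ F.erase i, w j + (Φ.filter (fun F => i ∈ F)).card * w i := by
    rw [← smul_eq_mul, ← Finset.sum_const, ← Finset.sum_add_distrib]
    refine Finset.sum_congr rfl fun F hF => ?_
    unfold W
    exact (Finset.sum_erase_add F w (Finset.mem_filter.1 hF).2).symm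
  have h5 : ∑ j, w j = ∑ j ∈ Finset.univ.erase i, w j + w i := (Finset.sum_erase_add _ w (Finset.mem_univ i)).symm
  rw [h4, h5, h3]
  ring

lemma swap_sum (Φ : Finset (Finset (Fin n))) (g : Finset (Fin n) → Fin n → ℕ) :
    ∑ F ∈ Φ, ∑ i ∈ F, g F i = ∑ i, ∑ F ∈ Φ.filter (fun F => i ∈ F), g F i := by
  classical
  have h1 : ∀ F ∈ Φ, ∑ i ∈ F, g F i = ∑ i : Fin n, if i ∈ F then g F i else 0 := by
    intro F _
    rw [← Finset.sum_filter]
    congr 1
    ext i
    simp
  rw [Finset.sum_congr rfl h1, Finset.sum_comm]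
  refine Finset.sum_congr rfl fun i _ => ?_
  rw [Finset.sum_filter]

/-- the sum of the squares -/
lemma sq_sum {Φ : Finset (Finset (Fin n))} (h : IsLS Φ) (w : Fin n → ℕ) :
    ∑ F ∈ Φ, W w F ^ 2 + ∑ i, w i ^ 2 = (∑ i, w i) ^ 2 + ∑ F ∈ Φ, ∑ i ∈ F, w i ^ 2 := by
  have h1 : ∑ F ∈ Φ, W w F ^ 2 = ∑ F ∈ Φ, ∑ i ∈ F, w i * W w F := by
    refine Finset.sum_congr rfl fun F _ => ?_
    rw [← Finset.sum_mul, pow_two]
    rfl
  rw [h1, swap_sum, swap_sum, ← Finset.sum_add_distrib, pow_two, Finset.sum_mul, ← Finset.sum_add_distrib]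
  refine Finset.sum_congr rfl fun i _ => ?_
  rw [← Finset.mul_sum, Finset.sum_const, smul_eq_mul]
  have h2 := through_sum h w i
  calc w i * ∑ F ∈ Φ.filter (fun F => i ∈ F), W w F + w i ^ 2
      = w i * (∑ F ∈ Φ.filter (fun F => i ∈ F), W w F + w i) := by ring
    _ = w i * (∑ j, w j + (Φ.filter (fun F => i ∈ F)).card * w i) := by rw [h2]
    _ = _ := by ring

/-- the shares of a line -/
lemma share_ge {Φ : Finset (Finset (Fin n))} (h : IsLS Φ) {w : Fin n → ℕ} (hw : IsWt w) {k : ℕ} (hk : ∑ i, w i = 3 * k)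
    {i : Fin n} {F₀ : Finset (Fin n)} (hF₀ : F₀ ∈ Φ) (hi : i ∉ F₀) (h6 : 6 ≤ W w F₀) :
    6 * w i + 2 ≤ ∑ F ∈ Φ.filter (fun F => i ∈ F), sh w F i + (if i ∈ bad Φ w then 6 else 0) := by
  classical
  have hT := through_sum h w i
  rw [hk] at hT
  rcases hw i with h1 | h2
  · -- weight one
    have hmod : (∑ F ∈ Φ.filter (fun F => i ∈ F), sh w F i + (Φ.filter (fun F => i ∈ F)).card) % 3 =
        (∑ F ∈ Φ.filter (fun F => i ∈ F), W w F) % 3 := by
      rw [Finset.card_eq_sum_ones, ← Finset.sum_add_distrib]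
      have h3 : ∀ F ∈ Φ.filter (fun F => i ∈ F), (sh w F i + 1) % 3 = (W w F) % 3 := by
        intro F _
        unfold sh
        split_ifs with h4
        · rw [h4]
        · rw [h1]
          omega
      rw [Finset.sum_nat_mod, Finset.sum_congr rfl h3, ← Finset.sum_nat_mod]
    have h3 : 6 ≤ ∑ F ∈ Φ.filter (fun F => i ∈ F), sh w F i := by
      have h4 : ∀ j ∈ F₀, ∃ F ∈ Φ, i ∈ F ∧ j ∈ F := by
        intro j hj
        exact h.2.1 i j (fun hij => hi (by rw [hij]; exact hj))
      choose! f hf hif hjf using h4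
      have hinj : Set.InjOn f F₀ := by
        intro j hj j' hj' hjj
        by_contra hne
        have h2 := h.2.2 (f j) (hf j hj) F₀ hF₀ j j' hne (hjf j hj) (by rw [hjj]; exact hjf j' hj') hj hj'
        apply hi
        rw [← h2]
        exact hif j hj
      calc 6 ≤ W w F₀ := h6
        _ = ∑ j ∈ F₀, w j := rfl
        _ ≤ ∑ j ∈ F₀, sh w (f j) i := by
            refine Finset.sum_le_sum fun j hj => ?_
            have hij : i ≠ j := fun hij => hi (by rw [hij]; exact hj)
            unfold sh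
            split_ifs with h5
            · have h7 : w i + w j ≤ W w (f j) := by
                unfold W
                rw [← Finset.sum_pair hij]
                refine Finset.sum_le_sum_of_subset ?_
                intro y hy
                rw [Finset.mem_insert, Finset.mem_singleton] at hy
                rcases hy with rfl | rfl
                · exact hif j hj
                · exact hjf _ hj
              omega
            · rcases hw j with h8 | h8 <;> rw [h8] <;> omega
        _ = ∑ F ∈ F₀.image f, sh w F i := (Finset.sum_image (f := fun F => sh w F i) hinj).symm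
        _ ≤ _ := by
            refine Finset.sum_le_sum_of_subset ?_
            intro F hF
            rw [Finset.mem_image] at hF
            obtain ⟨j, hj, rfl⟩ := hF
            exact Finset.mem_filter.2 ⟨hf j hj, hif j hj⟩
    rw [h1] at hT ⊢
    omega
  · -- weight two
    have h3 : ∀ F ∈ Φ.filter (fun F => i ∈ F), sh w F i = 2 + 2 * (W w F % 3) := by
      intro F hF
      rw [Finset.mem_filter] at hF
      have h4 : W w F ≠ 2 := by
        intro h5
        have h6 := h.1 F hF.1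
        have h7 := Finset.add_sum_erase F w hF.2
        have h8 := card_le_W hw (F.erase i)
        rw [Finset.card_erase_of_mem hF.2] at h8
        unfold W at h5 h8
        omega
      unfold sh
      rw [if_neg h4, h2]
      ring
    have hbad : i ∉ bad Φ w → 8 < ∑ F ∈ Φ.filter (fun F => i ∈ F), sh w F i := by
      intro hb
      rw [Finset.sum_congr rfl h3]
      by_contra hcon
      apply hb
      unfold bad
      rw [Finset.mem_filter]
      refine ⟨Finset.mem_univ _, h2, ?_⟩
      convert not_lt.1 hcon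
    have h4 : ∑ F ∈ Φ.filter (fun F => i ∈ F), sh w F i =
        2 * ((Φ.filter (fun F => i ∈ F)).card + ∑ F ∈ Φ.filter (fun F => i ∈ F), W w F % 3) := by
      rw [Finset.sum_congr rfl h3, Finset.sum_add_distrib, Finset.sum_const, smul_eq_mul, ← Finset.mul_sum]
      ring
    have h5 : (∑ F ∈ Φ.filter (fun F => i ∈ F), W w F % 3) % 3 = (∑ F ∈ Φ.filter (fun F => i ∈ F), W w F) % 3 :=
      (Finset.sum_nat_mod _ _ _).symm
    have h6' := W_le hw F₀
    have h7 := card_le_through h hF₀ hi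
    rw [h2] at hT ⊢
    split_ifs with hb
    · omega
    · have h8 := hbad hb
      omega

theorem t_CNT : S_CNT := by
  classical
  intro n k Φ w hLS hw hk hk3 hb hE
  -- the lower bound
  have h1 : ∑ i, (6 * w i + 2) ≤ ∑ i, (∑ F ∈ Φ.filter (fun F => i ∈ F), sh w F i + (if i ∈ bad Φ w then 6 else 0)) := by
    refine Finset.sum_le_sum fun i _ => ?_
    obtain ⟨F₀, hF₀, hi, h6⟩ := hE i
    exact share_ge hLS hw hk hF₀ hi h6
  have h2 : ∑ i : Fin n, (if i ∈ bad Φ w then 6 else 0) = 6 * (bad Φ w).card := by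
    rw [← Finset.sum_filter, Finset.sum_const, smul_eq_mul, mul_comm]
    congr 2
    ext i
    simp
  rw [Finset.sum_add_distrib, Finset.sum_add_distrib, ← Finset.mul_sum, hk, h2, Finset.sum_const, Finset.card_univ,
    Fintype.card_fin, smul_eq_mul, ← swap_sum] at h1
  -- the upper bound
  have h3 : ∑ F ∈ Φ, (∑ i ∈ F, sh w F i + 18 * (W w F / 3).choose 2 + ∑ i ∈ F, w i ^ 2) ≤ ∑ F ∈ Φ, W w F ^ 2 :=
    Finset.sum_le_sum fun F hF => block_ineq hw (hLS.1 F hF)
  rw [Finset.sum_add_distrib, Finset.sum_add_distrib, ← Finset.mul_sum] at h3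
  have h4 : ∑ F ∈ Φ, (W w F / 3).choose 2 = cnt Φ w := rfl
  rw [h4] at h3
  have h5 := sq_sum hLS w
  rw [hk] at h5
  have h6 := sum_sq hw Finset.univ
  rw [Finset.card_univ, Fintype.card_fin] at h6
  have h7 : W w Finset.univ = 3 * k := by rw [← hk]; rfl
  rw [h7] at h6
  have h8 : 18 * cnt Φ w + 27 * k ≤ (3 * k) ^ 2 + 12 := by omega
  obtain ⟨m, rfl⟩ : ∃ m, k = m + 3 := ⟨k - 3, by omega⟩
  have h9 : 2 * (m + 3 - 1).choose 2 = (m + 2) * (m + 1) := by
    have e1 : m + 3 - 1 = m + 2 := by omega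
    rw [e1, Nat.choose_two_right]
    have e2 : m + 2 - 1 = m + 1 := by omega
    rw [e2]
    refine Nat.two_mul_div_two_of_even ?_
    rw [mul_comm]
    exact Nat.even_mul_succ_self (m + 1)
  by_contra hcon
  rw [not_lt] at hcon
  nlinarith

end Pool.Agent.J4H79.TL
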