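import Pool.Agent.J4H13.TL.Jobs

set_option autoImplicit false

/-!
# Project TL (helper13), job FOUR (helper79)
-/

namespace Pool.Agent.J4H79.TL

open Finset
open Pool.Agent.J4H13.LA Pool.Agent.J4H13.TL

variable {n : ℕ}

open scoped Classical in
/-- the blocks through `i` other than `P` -/
noncomputable def Fam (Φ : Finset (Finset (Fin n))) (P : Finset (Fin n)) (i : Fin n) : Finset (Finset (Fin n)) :=
  (Φ.filter (fun F => i ∈ F)).erase P

open scoped Classical in
/-- the pairs inside the classes -/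
noncomputable def Pr (Φ : Finset (Finset (Fin n))) (P : Finset (Fin n)) (i : Fin n) : Finset (Finset (Fin n)) :=
  (Fam Φ P i).biUnion fun F => (F.erase i).powersetCard 2

lemma mem_Fam {Φ : Finset (Finset (Fin n))} {P F : Finset (Fin n)} {i : Fin n} :
    F ∈ Fam Φ P i ↔ F ≠ P ∧ F ∈ Φ ∧ i ∈ F := by
  unfold Fam
  rw [Finset.mem_erase, Finset.mem_filter]

/-- a line outside `P` is in at least `|P|` blocks -/
lemma card_le_through {Φ : Finset (Finset (Fin n))} (h : IsLS Φ) {i : Fin n} {F₀ : Finset (Fin n)}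
    (hF₀ : F₀ ∈ Φ) (hi : i ∉ F₀) : F₀.card ≤ (Φ.filter (fun F => i ∈ F)).card := by
  classical
  have h1 : ∀ j ∈ F₀, ∃ F ∈ Φ, i ∈ F ∧ j ∈ F := by
    intro j hj
    exact h.2.1 i j (fun hij => hi (by rw [hij]; exact hj))
  choose! f hf hif hjf using h1
  refine Finset.card_le_card_of_injOn f ?_ ?_
  · intro j hj
    rw [Finset.mem_coe, Finset.mem_filter]
    exact ⟨hf j hj, hif j hj⟩
  · intro j hj j' hj' hjj
    by_contra hne
    have h2 := h.2.2 (f j) (hf j hj) F₀ hF₀ j j' hne (hjf j hj) (by rw [hjj]; exact hjf j' hj') hj hj'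
    apply hi
    rw [← h2]
    exact hif j hj

lemma mem_bad {Φ : Finset (Finset (Fin n))} {w : Fin n → ℕ} {i : Fin n} (hi : i ∈ bad Φ w) :
    w i = 2 ∧ (Φ.filter (fun F => i ∈ F)).card + ∑ F ∈ Φ.filter (fun F => i ∈ F), (W w F % 3) ≤ 4 := by
  unfold bad at hi
  rw [Finset.mem_filter] at hi
  refine ⟨hi.2.1, ?_⟩
  have h := hi.2.2
  rw [Finset.sum_add_distrib, Finset.sum_const, smul_eq_mul, ← Finset.mul_sum] at h
  omega

lemma bad_mem {Φ : Finset (Finset (Fin n))} (h : IsLS Φ) {w : Fin n → ℕ} {i : Fin n} (hi : i ∈ bad Φ w)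
    {P : Finset (Fin n)} (hP : P ∈ Φ) (h5 : 5 ≤ P.card) : i ∈ P := by
  by_contra hc
  have h1 := card_le_through h hP hc
  have h2 := (mem_bad hi).2
  omega

lemma card_Fam {Φ : Finset (Finset (Fin n))} {P : Finset (Fin n)} (hP : P ∈ Φ) {i : Fin n} (hi : i ∈ P) :
    (Fam Φ P i).card + 1 = (Φ.filter (fun F => i ∈ F)).card := by
  unfold Fam
  exact Finset.card_erase_add_one (Finset.mem_filter.2 ⟨hP, hi⟩)

lemma sum_Fam {Φ : Finset (Finset (Fin n))} (h : IsLS Φ) {P : Finset (Fin n)} (hP : P ∈ Φ) {i : Fin n} (hi : i ∈ P) :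
    ∑ F ∈ Fam Φ P i, (F.card - 1) + P.card = n := by
  have h1 := h.card_through i
  have h2 : P ∈ Φ.filter (fun F => i ∈ F) := Finset.mem_filter.2 ⟨hP, hi⟩
  rw [← Finset.add_sum_erase _ _ h2] at h1
  have h3 : ∑ F ∈ Fam Φ P i, (F.card - 1) = ∑ F ∈ (Φ.filter (fun F => i ∈ F)).erase P, (F.card - 1) := by
    unfold Fam
    congr
  rw [h3]
  have h4 := h.1 P hP
  have h5 : P.card ≤ n := by
    have := Finset.card_le_univ P
    rwa [Fintype.card_fin] at this
  have h6 : 1 ≤ n := by omega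
  omega

lemma card_Pr {Φ : Finset (Finset (Fin n))} (h : IsLS Φ) {P : Finset (Fin n)} {i : Fin n} :
    (Pr Φ P i).card = ∑ F ∈ Fam Φ P i, (F.card - 1).choose 2 := by
  classical
  unfold Pr
  rw [Finset.card_biUnion]
  · refine Finset.sum_congr rfl fun F hF => ?_
    rw [Finset.card_powersetCard, Finset.card_erase_of_mem (mem_Fam.1 hF).2.2]
  · intro F hF F' hF' hne
    rw [Finset.mem_coe] at hF hF'
    rw [Function.onFun, Finset.disjoint_left]
    intro p hp hp'
    rw [Finset.mem_powersetCard] at hp hp'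
    obtain ⟨x, y, hxy, rfl⟩ := Finset.card_eq_two.1 hp.2
    apply hne
    have hx := hp.1 (Finset.mem_insert_self x {y})
    have hy := hp.1 (Finset.mem_insert_of_mem (Finset.mem_singleton_self y))
    have hx' := hp'.1 (Finset.mem_insert_self x {y})
    have hy' := hp'.1 (Finset.mem_insert_of_mem (Finset.mem_singleton_self y))
    rw [Finset.mem_erase] at hx hy hx' hy'
    exact h.2.2 F (mem_Fam.1 hF).2.1 F' (mem_Fam.1 hF').2.1 x y hxy hx.2 hy.2 hx'.2 hy'.2

/-- a class is outside `P` -/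
lemma class_out {Φ : Finset (Finset (Fin n))} (h : IsLS Φ) {P F : Finset (Fin n)} (hP : P ∈ Φ) {i x : Fin n} (hi : i ∈ P)
    (hF : F ∈ Fam Φ P i) (hx : x ∈ F) (hxi : x ≠ i) : x ∉ P := by
  intro hxP
  rw [mem_Fam] at hF
  exact hF.1 (h.2.2 F hF.2.1 P hP x i hxi hx hF.2.2 hxP hi)

lemma Pr_sub {Φ : Finset (Finset (Fin n))} (h : IsLS Φ) {P : Finset (Fin n)} (hP : P ∈ Φ) {i : Fin n} (hi : i ∈ P) :
    Pr Φ P i ⊆ (Finset.univ \ P).powersetCard 2 := by
  classical
  intro p hp
  unfold Pr at hp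
  rw [Finset.mem_biUnion] at hp
  obtain ⟨F, hF, hp⟩ := hp
  rw [Finset.mem_powersetCard] at hp ⊢
  refine ⟨fun x hx => ?_, hp.2⟩
  have h1 := Finset.mem_erase.1 (hp.1 hx)
  rw [Finset.mem_sdiff]
  exact ⟨Finset.mem_univ _, class_out h hP hi hF h1.2 h1.1⟩

lemma Pr_disj {Φ : Finset (Finset (Fin n))} (h : IsLS Φ) {P : Finset (Fin n)} (hP : P ∈ Φ) {i j : Fin n} (hi : i ∈ P)
    (hj : j ∈ P) (hij : i ≠ j) : Disjoint (Pr Φ P i) (Pr Φ P j) := by
  classical
  rw [Finset.disjoint_left]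
  intro p hp hp'
  have h0 := Pr_sub h hP hi hp
  unfold Pr at hp hp'
  rw [Finset.mem_biUnion] at hp hp'
  obtain ⟨F, hF, hp⟩ := hp
  obtain ⟨F', hF', hp'⟩ := hp'
  rw [Finset.mem_powersetCard] at hp hp' h0
  obtain ⟨x, y, hxy, rfl⟩ := Finset.card_eq_two.1 hp.2
  have hx := Finset.mem_erase.1 (hp.1 (Finset.mem_insert_self x {y}))
  have hy := Finset.mem_erase.1 (hp.1 (Finset.mem_insert_of_mem (Finset.mem_singleton_self y)))
  have hx' := Finset.mem_erase.1 (hp'.1 (Finset.mem_insert_self x {y}))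
  have hy' := Finset.mem_erase.1 (hp'.1 (Finset.mem_insert_of_mem (Finset.mem_singleton_self y)))
  rw [mem_Fam] at hF hF'
  have h1 := h.2.2 F hF.2.1 F' hF'.2.1 x y hxy hx.2 hy.2 hx'.2 hy'.2
  have h2 : j ∈ F := by rw [h1]; exact hF'.2.2
  exact hF.1 (h.2.2 F hF.2.1 P hP i j hij hF.2.2 h2 hi hj)

/-- Cauchy-Schwarz -/
lemma Pr_ge {Φ : Finset (Finset (Fin n))} (h : IsLS Φ) {P : Finset (Fin n)} (hP : P ∈ Φ) {i : Fin n} (hi : i ∈ P)
    {m ρ : ℕ} (hm : (Fam Φ P i).card ≤ m) (hρ : ρ + P.card = n) : ρ ^ 2 ≤ m * (2 * (Pr Φ P i).card + ρ) := by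
  have h1 := sum_Fam h hP hi
  have h2 : ∑ F ∈ Fam Φ P i, (F.card - 1) = ρ := by omega
  have h3 : (∑ F ∈ Fam Φ P i, (F.card - 1)) ^ 2 ≤ (Fam Φ P i).card * ∑ F ∈ Fam Φ P i, (F.card - 1) ^ 2 :=
    sq_sum_le_card_mul_sum_sq
  have h4 : ∑ F ∈ Fam Φ P i, (F.card - 1) ^ 2 = 2 * (Pr Φ P i).card + ρ := by
    rw [card_Pr h, ← h2, Finset.mul_sum, ← Finset.sum_add_distrib]
    refine Finset.sum_congr rfl fun F _ => ?_
    have h5 : 2 * (F.card - 1).choose 2 = (F.card - 1) * (F.card - 1 - 1) := by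
      rw [Nat.choose_two_right]
      exact Nat.two_mul_div_two_of_even (Nat.even_mul_pred_self _)
    rw [h5]
    rcases Nat.eq_zero_or_pos (F.card - 1) with h6 | h6
    · rw [h6]
      rfl
    · obtain ⟨t, ht⟩ : ∃ t, F.card - 1 = t + 1 := ⟨F.card - 1 - 1, by omega⟩
      rw [ht, Nat.add_sub_cancel]
      ring
  rw [h2, h4] at h3
  exact h3.trans (Nat.mul_le_mul_right _ hm)

lemma Fam_bad {Φ : Finset (Finset (Fin n))} {w : Fin n → ℕ} {P : Finset (Fin n)} (hP : P ∈ Φ) {i : Fin n} (hi : i ∈ P)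
    (hb : i ∈ bad Φ w) : (Fam Φ P i).card ≤ 3 ∧ ((Fam Φ P i).card = 3 → ∀ F ∈ Fam Φ P i, W w F % 3 = 0) := by
  have h1 := (mem_bad hb).2
  have h2 := card_Fam hP hi
  refine ⟨by omega, fun h3 F hF => ?_⟩
  have h4 : ∑ F ∈ Φ.filter (fun F => i ∈ F), (W w F % 3) = 0 := by omega
  rw [Finset.sum_eq_zero_iff] at h4
  rw [mem_Fam] at hF
  exact h4 F (Finset.mem_filter.2 hF.2)

/-- every line outside `P` is in a class -/
lemma exists_class {Φ : Finset (Finset (Fin n))} (h : IsLS Φ) {P : Finset (Fin n)} {i x : Fin n} (hi : i ∈ P)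
    (hx : x ∉ P) : ∃ F ∈ Fam Φ P i, x ∈ F := by
  obtain ⟨F, hF, hiF, hxF⟩ := h.2.1 i x (fun hix => hx (by rw [← hix]; exact hi))
  refine ⟨F, mem_Fam.2 ⟨?_, hF, hiF⟩, hxF⟩
  rintro rfl
  exact hx hxF

/-- the class of `x` is `{x}` if `(|F| - 1 choose 2) = 0` -/
lemma pair_of {F : Finset (Fin n)} {i x : Fin n} (hi : i ∈ F) (hx : x ∈ F) (hix : i ≠ x) (hF : (F.card - 1).choose 2 = 0) :
    F = {i, x} := by
  have h10 : F.card ≤ 2 := by
    by_contra hcon
    have h1 : 2 ≤ F.card - 1 := by omega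
    have := Nat.choose_pos h1
    omega
  refine (Finset.eq_of_subset_of_card_le ?_ ?_).symm
  · intro y hy
    rw [Finset.mem_insert, Finset.mem_singleton] at hy
    rcases hy with rfl | rfl
    · exact hi
    · exact hx
  · rw [Finset.card_pair hix]
    exact h10

/-- the case of three lines outside `P` -/
lemma three {Φ : Finset (Finset (Fin n))} (h : IsLS Φ) {w : Fin n → ℕ} (hw : IsWt w) {P : Finset (Fin n)} (hP : P ∈ Φ)
    {i : Fin n} (hi : i ∈ P) (hb : i ∈ bad Φ w) (hρ : 3 + P.card = n) (hW : 4 ≤ W w (Finset.univ \ P)) :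
    1 ≤ (Pr Φ P i).card := by
  classical
  by_contra hc
  have h0 : (Pr Φ P i).card = 0 := by omega
  obtain ⟨h1, h2⟩ := Fam_bad hP hi hb
  have h3 := Pr_ge h hP hi (le_refl (Fam Φ P i).card) hρ
  rw [h0] at h3
  have h4 : (Fam Φ P i).card = 3 := by omega
  have h5 := h2 h4
  rw [card_Pr h, Finset.sum_eq_zero_iff] at h0
  have hwi := (mem_bad hb).1
  have h6 : ∀ x ∈ Finset.univ \ P, w x = 1 := by
    intro x hx
    rw [Finset.mem_sdiff] at hx
    obtain ⟨F, hF, hxF⟩ := exists_class h hi hx.2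
    have h8 := h5 F hF
    have hix : i ≠ x := fun hix => hx.2 (by rw [← hix]; exact hi)
    rw [pair_of (mem_Fam.1 hF).2.2 hxF hix (h0 F hF)] at h8
    unfold W at h8
    rw [Finset.sum_pair hix, hwi] at h8
    rcases hw x with h9 | h9 <;> omega
  have h7 : W w (Finset.univ \ P) = (Finset.univ \ P).card := by
    unfold W
    rw [Finset.card_eq_sum_ones]
    exact Finset.sum_congr rfl h6
  have h8 : (Finset.univ \ P : Finset (Fin n)).card + P.card = n := by
    have := Finset.card_sdiff_add_card_eq_card (Finset.subset_univ P)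
    rwa [Finset.card_univ, Fintype.card_fin] at this
  omega

/-- the case of four lines outside `P` -/
lemma four {Φ : Finset (Finset (Fin n))} (h : IsLS Φ) {w : Fin n → ℕ} (hw : IsWt w) {P : Finset (Fin n)} (hP : P ∈ Φ)
    {i : Fin n} (hi : i ∈ P) (hb : i ∈ bad Φ w) (hρ : 4 + P.card = n) (h1 : (Pr Φ P i).card = 1) :
    (Finset.univ \ P).filter (fun x => w x = 2) ∈ Pr Φ P i := by
  classical
  obtain ⟨h2, h3⟩ := Fam_bad hP hi hb
  have h4 := Pr_ge h hP hi (le_refl (Fam Φ P i).card) hρ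
  rw [h1] at h4
  have h5 : (Fam Φ P i).card = 3 := by omega
  have h6 := h3 h5
  have hwi := (mem_bad hb).1
  obtain ⟨p, hp⟩ := Finset.card_eq_one.1 h1
  have hpm : p ∈ Pr Φ P i := by rw [hp]; exact Finset.mem_singleton_self p
  have hpm' := hpm
  unfold Pr at hpm'
  rw [Finset.mem_biUnion] at hpm'
  obtain ⟨F, hF, hpF⟩ := hpm'
  rw [Finset.mem_powersetCard] at hpF
  -- the class of `F` is `p`
  have h7 : ∑ F ∈ Fam Φ P i, (F.card - 1).choose 2 = 1 := by rw [← card_Pr h]; exact h1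
  have h8 : (F.erase i).card = F.card - 1 := Finset.card_erase_of_mem (mem_Fam.1 hF).2.2
  have h9 : 2 ≤ F.card - 1 := by
    rw [← h8, ← hpF.2]
    exact Finset.card_le_card hpF.1
  rw [← Finset.add_sum_erase _ _ hF] at h7
  have h10 : F.card - 1 = 2 := by
    by_contra hne
    have h11 : 3 ≤ F.card - 1 := by omega
    have h12 : (3 : ℕ).choose 2 ≤ (F.card - 1).choose 2 := Nat.choose_le_choose 2 h11
    have h13 : (3 : ℕ).choose 2 = 3 := by decide
    omega
  have h11 : ∑ F ∈ (Fam Φ P i).erase F, (F.card - 1).choose 2 = 0 := by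
    rw [h10] at h7
    have h13 : (2 : ℕ).choose 2 = 1 := by decide
    omega
  rw [Finset.sum_eq_zero_iff] at h11
  have h12 : p = F.erase i := Finset.eq_of_subset_of_card_le hpF.1 (by rw [h8, h10, hpF.2])
  have h13 : (Finset.univ \ P).filter (fun x => w x = 2) = F.erase i := by
    obtain ⟨x, y, hxy, hFe⟩ := Finset.card_eq_two.1 (h8.trans h10)
    have hxF : x ∈ F.erase i := by rw [hFe]; exact Finset.mem_insert_self _ _
    have hyF : y ∈ F.erase i := by rw [hFe]; exact Finset.mem_insert_of_mem (Finset.mem_singleton_self _)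
    have hW : W w F = w i + (w x + w y) := by
      unfold W
      rw [← Finset.add_sum_erase F w (mem_Fam.1 hF).2.2, hFe, Finset.sum_pair hxy]
    have h14 := h6 F hF
    rw [hW, hwi] at h14
    have h15 : w x = 2 ∧ w y = 2 := by
      rcases hw x with hx | hx <;> rcases hw y with hy | hy <;> rw [hx, hy] at h14 <;> omega
    refine Finset.Subset.antisymm ?_ ?_
    · intro z hz
      rw [Finset.mem_filter, Finset.mem_sdiff] at hz
      obtain ⟨F', hF', hzF'⟩ := exists_class h hi hz.1.2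
      have hiz : i ≠ z := fun hiz => hz.1.2 (by rw [← hiz]; exact hi)
      by_cases hFF : F' = F
      · rw [← hFF]
        exact Finset.mem_erase.2 ⟨Ne.symm hiz, hzF'⟩
      · exfalso
        have h16 := h11 F' (Finset.mem_erase.2 ⟨hFF, hF'⟩)
        have h17 := pair_of (mem_Fam.1 hF').2.2 hzF' hiz h16
        have h18 := h6 F' hF'
        rw [h17] at h18
        unfold W at h18
        rw [Finset.sum_pair hiz, hwi, hz.2] at h18
        omega
    · intro z hz
      have hz' := Finset.mem_erase.1 hz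
      rw [Finset.mem_filter, Finset.mem_sdiff]
      refine ⟨⟨Finset.mem_univ _, class_out h hP hi hF hz'.2 hz'.1⟩, ?_⟩
      rw [hFe, Finset.mem_insert, Finset.mem_singleton] at hz
      rcases hz with rfl | rfl
      · exact h15.1
      · exact h15.2
  rw [h13, ← h12]
  exact hpm

lemma co_wt {w : Fin n → ℕ} (hw : IsWt w) : IsWt (co w) := by
  intro i
  unfold co
  rcases hw i with h | h <;> rw [h] <;> omega

theorem t_FOUR : S_FOUR := by
  classical
  intro n k k' Φ w hLS hw hk hk' hF hF' hb hb' P hP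
  by_contra hcon
  have h5 : 5 ≤ P.card := by omega
  have hwc := co_wt hw
  have hρ0 : (Finset.univ \ P : Finset (Fin n)).card + P.card = n := by
    have := Finset.card_sdiff_add_card_eq_card (Finset.subset_univ P)
    rwa [Finset.card_univ, Fintype.card_fin] at this
  obtain ⟨ρ, hρdef⟩ : ∃ ρ, ρ = (Finset.univ \ P : Finset (Fin n)).card := ⟨_, rfl⟩
  rw [← hρdef] at hρ0
  -- the weights outside `P`
  have hsp : ∀ v : Fin n → ℕ, W v (Finset.univ \ P) + W v P = ∑ i, v i := by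
    intro v
    unfold W
    exact Finset.sum_sdiff (Finset.subset_univ P)
  have hW1 : 4 ≤ W w (Finset.univ \ P) := by
    have h1 := hsp w
    have h2 := hF P hP
    omega
  have hW2 : 4 ≤ W (co w) (Finset.univ \ P) := by
    have h1 := hsp (co w)
    have h2 := hF' P hP
    omega
  have hW3 : W w (Finset.univ \ P) + W (co w) (Finset.univ \ P) = 3 * ρ := by
    unfold W
    rw [← Finset.sum_add_distrib, hρdef, mul_comm, ← smul_eq_mul, ← Finset.sum_const]
    refine Finset.sum_congr rfl fun i _ => ?_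
    unfold co
    rcases hw i with h | h <;> rw [h]
  have hρ3 : 3 ≤ ρ := by omega
  -- the bad lines
  set B : Finset (Fin n) := bad Φ w ∪ bad Φ (co w) with hB
  have hdisj : Disjoint (bad Φ w) (bad Φ (co w)) := by
    rw [Finset.disjoint_left]
    intro i hi hi'
    have h1 := (mem_bad hi).1
    have h2 := (mem_bad hi').1
    unfold co at h2
    omega
  have hB6 : 6 ≤ B.card := by
    rw [hB, Finset.card_union_of_disjoint hdisj]
    omega
  have hBP : ∀ i ∈ B, i ∈ P := by
    intro i hi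
    rw [hB, Finset.mem_union] at hi
    rcases hi with hi | hi
    · exact bad_mem hLS hi hP h5
    · exact bad_mem hLS hi hP h5
  have hFam3 : ∀ i ∈ B, (Fam Φ P i).card ≤ 3 := by
    intro i hi
    have hiP := hBP i hi
    rw [hB, Finset.mem_union] at hi
    rcases hi with hi | hi
    · exact (Fam_bad hP hiP hi).1
    · exact (Fam_bad hP hiP hi).1
  have hsum : ∑ i ∈ B, (Pr Φ P i).card ≤ ρ.choose 2 := by
    rw [← Finset.card_biUnion, hρdef, ← Finset.card_powersetCard]
    · refine Finset.card_le_card ?_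
      intro p hp
      rw [Finset.mem_biUnion] at hp
      obtain ⟨i, hi, hp⟩ := hp
      exact Pr_sub hLS hP (hBP i hi) hp
    · intro i hi j hj hij
      exact Pr_disj hLS hP (hBP i hi) (hBP j hj) hij
  have hge : ∀ i ∈ B, ρ ^ 2 ≤ 3 * (2 * (Pr Φ P i).card + ρ) := fun i hi =>
    Pr_ge hLS hP (hBP i hi) (hFam3 i hi) hρ0
  have hch : 2 * ρ.choose 2 = ρ * (ρ - 1) := by
    rw [Nat.choose_two_right]
    exact Nat.two_mul_div_two_of_even (Nat.even_mul_pred_self _)
  -- lower bounds of the sum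
  have hlow : ∀ c : ℕ, (∀ i ∈ B, c ≤ (Pr Φ P i).card) → 6 * c ≤ ρ.choose 2 := by
    intro c hc
    calc 6 * c ≤ B.card * c := Nat.mul_le_mul_right c hB6
      _ = ∑ _i ∈ B, c := by rw [Finset.sum_const, smul_eq_mul]
      _ ≤ ∑ i ∈ B, (Pr Φ P i).card := Finset.sum_le_sum hc
      _ ≤ _ := hsum
  rcases lt_or_ge ρ 6 with h6 | h6
  · interval_cases ρ
    · -- three
      have h7 := hlow 1 (fun i hi => by
        have hiP := hBP i hi
        rw [hB, Finset.mem_union] at hi
        rcases hi with hi | hi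
        · exact three hLS hw hP hiP hi hρ0 hW1
        · exact three hLS hwc hP hiP hi hρ0 hW2)
      have : (3 : ℕ).choose 2 = 3 := by decide
      omega
    · -- four
      have h4 : (4 : ℕ).choose 2 = 6 := by decide
      rw [h4] at hsum
      have h1 : ∀ i ∈ B, 1 ≤ (Pr Φ P i).card := fun i hi => by
        have := hge i hi
        omega
      have h2 : ∀ i ∈ B, (Pr Φ P i).card = 1 := by
        intro i hi
        by_contra hne
        have h3 : 2 ≤ (Pr Φ P i).card := by have := h1 i hi; omega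
        have h7 : ∑ j ∈ B.erase i, 1 ≤ ∑ j ∈ B.erase i, (Pr Φ P j).card :=
          Finset.sum_le_sum fun j hj => h1 j (Finset.mem_of_mem_erase hj)
        rw [← Finset.card_eq_sum_ones, Finset.card_erase_of_mem hi] at h7
        rw [← Finset.add_sum_erase _ _ hi] at hsum
        omega
      obtain ⟨i, hi, j, hj, hij⟩ := Finset.one_lt_card.1 (by omega : 1 < (bad Φ w).card)
      have hiB : i ∈ B := Finset.mem_union_left _ hi
      have hjB : j ∈ B := Finset.mem_union_left _ hj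
      have h3 := four hLS hw hP (hBP i hiB) hi hρ0 (h2 i hiB)
      have h3' := four hLS hw hP (hBP j hjB) hj hρ0 (h2 j hjB)
      exact Finset.disjoint_left.1 (Pr_disj hLS hP (hBP i hiB) (hBP j hjB) hij) h3 h3'
    · -- five
      have h7 := hlow 2 (fun i hi => by
        have := hge i hi
        omega)
      have : (5 : ℕ).choose 2 = 10 := by decide
      omega
  · -- at least six
    have h7 : 6 * (ρ ^ 2) ≤ 3 * (2 * ρ.choose 2 + 6 * ρ) := by
      obtain ⟨B', hB', hB'6⟩ := Finset.exists_subset_card_eq hB6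
      have h8 : ∑ i ∈ B', ρ ^ 2 ≤ ∑ i ∈ B', 3 * (2 * (Pr Φ P i).card + ρ) :=
        Finset.sum_le_sum fun i hi => hge i (hB' hi)
      rw [Finset.sum_const, smul_eq_mul, hB'6, ← Finset.mul_sum, Finset.sum_add_distrib, ← Finset.mul_sum,
        Finset.sum_const, smul_eq_mul, hB'6] at h8
      have h9 : ∑ i ∈ B', (Pr Φ P i).card ≤ ρ.choose 2 :=
        (Finset.sum_le_sum_of_subset hB').trans hsum
      omega
    rw [hch] at h7
    obtain ⟨t, rfl⟩ : ∃ t, ρ = t + 6 := ⟨ρ - 6, by omega⟩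
    have h8 : t + 6 - 1 = t + 5 := by omega
    rw [h8] at h7
    nlinarith

end Pool.Agent.J4H79.TL
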